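import Pool.Agent.Lib.MP_ee7726_lc.KW.Lau

/-!
A fast decreasing Laurent polynomial and the multiplier it defines.
-/

namespace Pool.Agent.Lib.MP_ee7726_lc.KW

open Complex Real intervalIntegral Finset

noncomputable section

def cq (j : ℕ) (ξ : ℂ) : ℂ := Complex.cos (2 ^ j * ξ / 2) ^ 2

/-- The fast decreasing Laurent polynomial. -/
def PP (J : ℕ) : ℂ → ℂ := ∏ j ∈ range (J + 1), cq j ^ 2 ^ (J - j)

theorem PP_apply (J : ℕ) (ξ : ℂ) : PP J ξ = ∏ j ∈ range (J + 1), cq j ξ ^ 2 ^ (J - j) := by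
  simp [PP]

theorem cq_mem (j : ℕ) : cq j ∈ LP (-(2 ^ j : ℤ)) := by
  have : cq j = (1 / 2 : ℂ) • ee 0 + (1 / 4 : ℂ) • ee (2 ^ j) + (1 / 4 : ℂ) • ee (-(2 ^ j)) := by
    funext ξ
    simp only [cq, ee, Pi.add_apply, Pi.smul_apply, smul_eq_mul]
    rw [Complex.cos_sq, Complex.cos]
    push_cast
    rw [show 2 * (2 ^ j * ξ / 2) = 2 ^ j * ξ by ring, show -(2 ^ j * ξ) = -2 ^ j * ξ by ring]
    simp only [zero_mul, Complex.exp_zero]
    ring
  have h : (0 : ℤ) < 2 ^ j := by positivity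
  rw [this]
  exact add_mem (add_mem (Submodule.smul_mem _ _ (ee_mem (by omega)))
    (Submodule.smul_mem _ _ (ee_mem (by omega)))) (Submodule.smul_mem _ _ (ee_mem le_rfl))

theorem PP_mem (J : ℕ) : PP J ∈ LP (-((J + 1) * 2 ^ J : ℕ)) := by
  have := LP.prod (range (J + 1)) (a := fun j => ((2 ^ (J - j) : ℕ) : ℤ) * -(2 ^ j : ℤ))
    fun j _ => LP.pow (cq_mem j) (2 ^ (J - j))
  rwa [sum_congr rfl (g := fun _ => -(2 ^ J : ℤ)) fun j hj => by
    have : j ≤ J := Nat.lt_succ_iff.1 (mem_range.1 hj)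
    push_cast
    rw [mul_neg, ← pow_add, Nat.sub_add_cancel this], sum_const, card_range, nsmul_eq_mul,
    mul_neg, show ((J + 1 : ℕ) : ℤ) * 2 ^ J = ((J + 1) * 2 ^ J : ℕ) by push_cast; ring] at this

theorem norm_cos_sq (x y : ℝ) :
    ‖Complex.cos (x + y * I) ^ 2‖ = Real.cos x ^ 2 + (Real.cosh (2 * y) - 1) / 2 := by
  rw [norm_pow, cos_add_mul_I, ← ofReal_cos, ← ofReal_cosh, ← ofReal_sin, ← ofReal_sinh,
    ← ofReal_mul, ← ofReal_mul, sub_eq_add_neg, ← neg_mul, ← ofReal_neg, Complex.sq_norm,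
    normSq_add_mul_I, Real.cosh_two_mul]
  have h1 := Real.cosh_sq y
  have h2 := Real.sin_sq_add_cos_sq x
  rw [mul_pow, neg_sq, mul_pow, h1]
  linear_combination Real.sinh y ^ 2 * h2

theorem norm_cq {σ s κ θ : ℝ} (hσ : σ = 1 ∨ σ = -1) (hy : 0 ≤ s + κ * θ) (j : ℕ) :
    ‖cq j (xi σ s κ θ)‖ ≤ rexp (2 ^ j * (s + κ * θ)) ∧
    (Real.cos (2 ^ j * θ) ≤ 0 → ‖cq j (xi σ s κ θ)‖ ≤ rexp (2 ^ j * (s + κ * θ)) * (1 / 2)) := by
  have e : (2 : ℂ) ^ j * xi σ s κ θ / 2 =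
      ((2 ^ j * (σ * θ) / 2 : ℝ) : ℂ) + ((2 ^ j * (s + κ * θ) / 2 : ℝ) : ℂ) * I := by
    simp only [xi]; push_cast; ring
  have hc : Real.cos (2 ^ j * (σ * θ) / 2) ^ 2 = 1 / 2 + Real.cos (2 ^ j * θ) / 2 := by
    rw [Real.cos_sq, show 2 * (2 ^ j * (σ * θ) / 2) = σ * (2 ^ j * θ) by ring]
    rcases hσ with rfl | rfl <;> simp
  rw [cq, e, norm_cos_sq, hc, show 2 * (2 ^ j * (s + κ * θ) / 2) = 2 ^ j * (s + κ * θ) by ring]
  generalize ht : 2 ^ j * (s + κ * θ) = t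
  have h0 : 0 ≤ t := by rw [← ht]; positivity
  have h1 : rexp (-t) ≤ rexp t := Real.exp_le_exp.2 (by linarith)
  have h2 : 1 ≤ rexp t := Real.one_le_exp h0
  have h3 := Real.cos_le_one (2 ^ j * θ)
  rw [Real.cosh_eq]
  exact ⟨by linarith, fun h => by linarith⟩

theorem exists_scale {J : ℕ} {θ : ℝ} (h0 : π / 2 ^ (J + 1) < θ) (h1 : θ ≤ π) :
    ∃ j ≤ J, π / 2 < 2 ^ j * θ ∧ 2 ^ j * θ ≤ π := by
  induction J with
  | zero => exact ⟨0, le_rfl, by simpa using h0, by simpa using h1⟩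
  | succ J ih =>
    by_cases h : π / 2 ^ (J + 1) < θ
    · obtain ⟨j, hj, h2⟩ := ih h
      exact ⟨j, by omega, h2⟩
    · have hp : (0 : ℝ) < 2 ^ (J + 1) := by positivity
      rw [not_lt, le_div_iff₀ hp] at h
      rw [div_lt_iff₀ (by positivity), pow_succ] at h0
      exact ⟨J + 1, le_rfl, by linarith, by linarith⟩

theorem norm_PP {σ s κ θ : ℝ} (hσ : σ = 1 ∨ σ = -1) (hy : 0 ≤ s + κ * θ) (h1 : θ ≤ π)
    (J : ℕ) : ‖PP J (xi σ s κ θ)‖ ≤
      rexp (1 - 2 ^ J * θ / 8 + (J + 1) * 2 ^ J * (s + κ * θ)) := by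
  have hM : (0 : ℝ) < 2 ^ J := by positivity
  have hpw : ∀ j ∈ range (J + 1),
      rexp (2 ^ j * (s + κ * θ)) ^ 2 ^ (J - j) = rexp (2 ^ J * (s + κ * θ)) := fun j hj => by
    have : j ≤ J := Nat.lt_succ_iff.1 (mem_range.1 hj)
    rw [← Real.exp_nat_mul, ← mul_assoc]
    push_cast
    rw [← pow_add, Nat.sub_add_cancel this]
  have hall : ∏ _j ∈ range (J + 1), rexp (2 ^ J * (s + κ * θ)) =
      rexp ((J + 1) * 2 ^ J * (s + κ * θ)) := by
    rw [prod_const, card_range, ← Real.exp_nat_mul]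
    push_cast
    rw [mul_assoc]
  rw [PP_apply, norm_prod, Real.exp_add]
  simp only [norm_pow]
  by_cases h : π / 2 ^ (J + 1) < θ
  · obtain ⟨i, hi, a1, a2⟩ := exists_scale h h1
    have hc := Real.cos_nonpos_of_pi_div_two_le_of_le a1.le (by linarith [pi_pos])
    have b1 : ∏ j ∈ range (J + 1), ‖cq j (xi σ s κ θ)‖ ^ 2 ^ (J - j) ≤ ∏ j ∈ range (J + 1),
        (rexp (2 ^ J * (s + κ * θ)) * if j = i then (1 / 2) ^ 2 ^ (J - i) else 1) := by
      refine prod_le_prod (fun j _ => by positivity) fun j hj => ?_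
      rw [← hpw j hj]
      split_ifs with hji
      · subst hji
        rw [← mul_pow]
        exact pow_le_pow_left₀ (norm_nonneg _) ((norm_cq hσ hy j).2 hc) _
      · rw [mul_one]
        exact pow_le_pow_left₀ (norm_nonneg _) (norm_cq hσ hy j).1 _
    rw [prod_mul_distrib, hall, prod_ite_eq', if_pos (mem_range.2 (by omega)), mul_comm] at b1
    refine b1.trans (mul_le_mul_of_nonneg_right ?_ (Real.exp_pos _).le)
    have b2 : (1 / 2 : ℝ) ≤ rexp (-(1 / 2)) := by linarith [Real.add_one_le_exp (-(1 / 2))]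
    refine (pow_le_pow_left₀ (by norm_num) b2 _).trans ?_
    rw [← Real.exp_nat_mul]
    refine Real.exp_le_exp.2 ?_
    push_cast
    have b3 : (2 : ℝ) ^ J = 2 ^ (J - i) * 2 ^ i := by rw [← pow_add, Nat.sub_add_cancel hi]
    have b4 : (0 : ℝ) < 2 ^ (J - i) := by positivity
    have b5 := mul_le_mul_of_nonneg_left (a2.trans pi_le_four) b4.le
    rw [b3]
    linarith
  · have b1 : ∏ j ∈ range (J + 1), ‖cq j (xi σ s κ θ)‖ ^ 2 ^ (J - j) ≤
        ∏ _j ∈ range (J + 1), rexp (2 ^ J * (s + κ * θ)) :=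
      prod_le_prod (fun j _ => by positivity) fun j hj => by
        rw [← hpw j hj]
        exact pow_le_pow_left₀ (norm_nonneg _) (norm_cq hσ hy j).1 _
    rw [hall] at b1
    refine b1.trans (le_mul_of_one_le_left (Real.exp_pos _).le (Real.one_le_exp ?_))
    rw [not_lt, le_div_iff₀ (by positivity), pow_succ] at h
    linarith [pi_le_four]

theorem one_sub_sum_le {ι : Type} (t : Finset ι) {a b : ι → ℝ} (hb : ∀ i ∈ t, 0 ≤ b i)
    (ha : ∀ i ∈ t, 0 ≤ a i) (h : ∀ i ∈ t, 1 - b i ≤ a i) :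
    1 - ∑ i ∈ t, b i ≤ ∏ i ∈ t, a i := by
  classical
  induction t using Finset.induction_on with
  | empty => simp
  | insert i t hi ih =>
    rw [sum_insert hi, prod_insert hi]
    have h1 := ih (fun j hj => hb j (mem_insert_of_mem hj)) (fun j hj => ha j (mem_insert_of_mem hj))
      fun j hj => h j (mem_insert_of_mem hj)
    have h2 : 0 ≤ ∏ j ∈ t, a j := prod_nonneg fun j hj => ha j (mem_insert_of_mem hj)
    have h3 : 0 ≤ ∑ j ∈ t, b j := sum_nonneg fun j hj => hb j (mem_insert_of_mem hj)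
    have h4 := h i (mem_insert_self _ _)
    have h5 := hb i (mem_insert_self _ _)
    have h6 := ha i (mem_insert_self _ _)
    by_cases h7 : 1 - b i ≤ 0
    · nlinarith [mul_nonneg h6 h2]
    · nlinarith [mul_le_mul_of_nonneg_right h4 h2,
        mul_le_mul_of_nonneg_left h1 (not_le.1 h7).le, mul_nonneg h5 h3]

/-- The kernel on the real line. -/
def QQ (J : ℕ) (θ : ℝ) : ℝ := ∏ j ∈ range (J + 1), (Real.cos (2 ^ j * θ / 2) ^ 2) ^ 2 ^ (J - j)

theorem QQ_ge (J : ℕ) {θ : ℝ} (h0 : 0 ≤ θ) (h1 : θ ≤ 1 / 2 ^ J) : 1 / 2 ≤ QQ J θ := by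
  have hM : (0 : ℝ) < 2 ^ J := by positivity
  rw [le_div_iff₀ hM] at h1
  have h := one_sub_sum_le (range (J + 1)) (b := fun j => 2 ^ j * (θ / 4))
    (a := fun j => (Real.cos (2 ^ j * θ / 2) ^ 2) ^ 2 ^ (J - j)) (fun j _ => by positivity)
    (fun j _ => by positivity) fun j hj => by
      have hj' : j ≤ J := Nat.lt_succ_iff.1 (mem_range.1 hj)
      have b1 := one_add_mul_le_pow (a := Real.cos (2 ^ j * θ / 2) ^ 2 - 1)
        (by nlinarith [sq_nonneg (Real.cos (2 ^ j * θ / 2))]) (2 ^ (J - j))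
      rw [add_sub_cancel] at b1
      refine le_trans ?_ b1
      have b2 := Real.sin_sq_le_sq (x := 2 ^ j * θ / 2)
      have b3 := Real.sin_sq_add_cos_sq (2 ^ j * θ / 2)
      have b4 : (2 : ℝ) ^ J = 2 ^ (J - j) * 2 ^ j := by rw [← pow_add, Nat.sub_add_cancel hj']
      have b5 : (0 : ℝ) < 2 ^ (J - j) := by positivity
      have b6 : (0 : ℝ) ≤ 2 ^ j * (θ / 4) := by positivity
      have b7 := mul_le_mul_of_nonneg_left b2 b5.le
      have b8 := mul_le_mul_of_nonneg_left h1 b6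
      push_cast
      rw [b4] at b8
      nlinarith
  rw [← sum_mul, geom_sum_eq (by norm_num), pow_succ] at h
  unfold QQ
  linarith

theorem Lam_PP (J : ℕ) : 1 / 2 ^ J ≤ ‖Lam 0 0 (PP J)‖ := by
  have hM : (1 : ℝ) ≤ 2 ^ J := one_le_pow₀ (by norm_num)
  have hc : Continuous (QQ J) := by unfold QQ; fun_prop
  have e : ∀ σ : ℝ, σ = 1 ∨ σ = -1 → pc σ 0 0 (PP J) = ((∫ θ in (0 : ℝ)..π, QQ J θ : ℝ) : ℂ) := by
    intro σ hσ
    rw [pc, ← integral_ofReal]
    refine integral_congr fun θ _ => ?_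
    simp only [PP_apply, QQ, cq, xi]
    rcases hσ with rfl | rfl <;> simp [neg_div]
  have h1 : (1 : ℝ) / 2 ^ J ≤ π := (div_le_self zero_le_one hM).trans (by linarith [pi_gt_three])
  have h2 : (0 : ℝ) ≤ 1 / 2 ^ J := by positivity
  have h3 : ∫ θ in (0 : ℝ)..1 / 2 ^ J, QQ J θ ≤ ∫ θ in (0 : ℝ)..π, QQ J θ :=
    integral_mono_interval le_rfl h2 h1
      (Filter.Eventually.of_forall fun θ => by unfold QQ; positivity) (hc.intervalIntegrable _ _)
  have h4 : ∫ _θ in (0 : ℝ)..1 / 2 ^ J, (1 / 2 : ℝ) ≤ ∫ θ in (0 : ℝ)..1 / 2 ^ J, QQ J θ :=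
    integral_mono_on h2 (by simp) (hc.intervalIntegrable _ _) fun θ hθ => QQ_ge J hθ.1 hθ.2
  rw [integral_const, sub_zero, smul_eq_mul] at h4
  rw [Lam, e 1 (Or.inl rfl), e _ (Or.inr rfl), ← ofReal_add, norm_real, Real.norm_eq_abs]
  exact le_trans (by linarith) (le_abs_self _)

/-- The growth factor. -/
def gg (r : ℝ) (ζ : ℂ) : ℝ := 1 / r + ‖1 - ζ‖ ^ 2 / (1 - r)

theorem gg_le {y θ σ κ : ℝ} (hσ : σ = 1 ∨ σ = -1) (h0 : 0 < y) (h1 : y ≤ 1) (hκ : 0 < κ)
    (hθ : 0 ≤ θ) (h : κ * θ ≤ y) :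
    gg (rexp (-y)) (cexp (I * (σ * θ : ℝ))) ≤ rexp (y + 2 * θ / κ) := by
  have a1 : ‖1 - cexp (I * (σ * θ : ℝ))‖ ≤ θ := by
    rw [norm_sub_rev]
    refine Real.norm_exp_I_mul_ofReal_sub_one_le.trans_eq ?_
    rcases hσ with rfl | rfl <;> simp [abs_of_nonneg hθ]
  have a2 : rexp (-y) * rexp y = 1 := by rw [← Real.exp_add]; simp
  have a3 := Real.add_one_le_exp y
  have a4 := Real.exp_pos (-y)
  have a5 : y / 2 ≤ 1 - rexp (-y) := by nlinarith [mul_le_mul_of_nonneg_left a3 a4.le]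
  have a6 : ‖1 - cexp (I * (σ * θ : ℝ))‖ ^ 2 / (1 - rexp (-y)) ≤ 2 * θ / κ := by
    rw [div_le_div_iff₀ (by linarith) hκ]
    have := pow_le_pow_left₀ (norm_nonneg _) a1 2
    nlinarith [mul_le_mul_of_nonneg_right this hκ.le, mul_le_mul_of_nonneg_left a5 hθ,
      mul_le_mul_of_nonneg_left h hθ]
  have a7 := Real.add_one_le_exp (2 * θ / κ)
  have a8 : 0 ≤ 2 * θ / κ := by positivity
  have a9 : 1 / rexp (-y) = rexp y := by rw [Real.exp_neg]; simp
  rw [gg, a9, Real.exp_add]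
  nlinarith [mul_le_mul_of_nonneg_left a7 (Real.exp_pos y).le]

/-- The multiplier. -/
theorem ana {w J : ℕ} (hw : 1 ≤ w) (hJ : 1056 * w * (J + 1) ≤ 2 ^ J) :
    ∃ ψ : ℕ → ℂ, 1 ≤ ‖ψ 0‖ ∧ (∀ k, (J + 1) * 2 ^ J < k → ψ k = 0) ∧
      ∀ {ι : Type} (t : Finset ι) (a : ι → ℂ) (n : ι → ℕ) (lam : ℝ), 0 ≤ lam →
        (∀ (r : ℝ) (ζ : ℂ), 0 < r → r < 1 → ‖ζ‖ = 1 →
          ‖∑ i ∈ t, (r * ζ) ^ n i * a i‖ ^ 2 ≤ gg r ζ ^ w * lam ^ 2) →
        ‖∑ i ∈ t, ψ (n i) * a i‖ ≤ 64 * rexp 3 * lam := by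
  set M : ℝ := 2 ^ J with hM
  have hB : (1 : ℝ) ≤ J + 1 := by linarith [Nat.cast_nonneg (α := ℝ) J]
  have hw' : (1 : ℝ) ≤ w := by exact_mod_cast hw
  have hJ' : 1056 * w * (J + 1) ≤ M := by rw [hM]; exact_mod_cast hJ
  have hM1 : 1056 * w ≤ M := le_trans (le_mul_of_one_le_right (by positivity) hB) hJ'
  have hM0 : 0 < M := by positivity
  set s : ℝ := 1 / ((J + 1) * M) with hs
  set κ : ℝ := 1 / (32 * (J + 1)) with hκ
  have s0 : 0 < s := by positivity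
  have k0 : 0 < κ := by positivity
  have s1 : (J + 1) * M * s = 1 := by rw [hs]; field_simp
  have k1 : (J + 1) * κ = 1 / 32 := by rw [hκ]; field_simp
  have k2 : κ ≤ 1 / 32 := by nlinarith
  have s2 : M * s ≤ 1 := by nlinarith [mul_pos hM0 s0]
  have s3 : w * s ≤ 1 / 2 := by nlinarith
  have s4 : s ≤ 1 / 2 := by nlinarith
  have hm : ∀ k : ℕ, ee k * PP J ∈ LP (k + -((J + 1) * 2 ^ J : ℕ)) := fun k =>
    LP.mul (ee_mem le_rfl) (PP_mem J)
  refine ⟨fun k => M * Lam s κ (ee k * PP J), ?_, fun k hk => ?_, fun t a n lam hl h => ?_⟩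
  · have e : ee (0 : ℕ) * PP J = PP J := by funext ξ; simp [ee]
    beta_reduce
    rw [e, ((LP.spec (PP_mem J)).2 s κ).1, norm_mul, norm_real, Real.norm_of_nonneg hM0.le]
    have := Lam_PP J
    rwa [div_le_iff₀' hM0] at this
  · beta_reduce
    rw [((LP.spec (hm k)).2 s κ).2 (by omega), mul_zero]
  beta_reduce
  have e : ∑ i ∈ t, M * Lam s κ (ee (n i) * PP J) * a i =
      M * Lam s κ (∑ i ∈ t, a i • (ee (n i) * PP J)) := by
    rw [Lam_sum t fun i => (LP.spec (hm (n i))).1.const_smul (a i), mul_sum]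
    exact sum_congr rfl fun i _ => by rw [Lam_smul]; ring
  rw [e, norm_mul, norm_real, Real.norm_of_nonneg hM0.le]
  have key := norm_Lam_le (f := ∑ i ∈ t, a i • (ee (n i) * PP J)) (s := s) (κ := κ)
    (B := rexp 3 * lam) (c := M / 16) (by rw [abs_of_pos k0]; linarith) (by positivity)
    (by positivity) fun σ hσ θ h0 h1 => by
      have hκθ : 0 ≤ κ * θ := by positivity
      have hy1 : s + κ * θ ≤ 1 := by nlinarith [pi_le_four]
      have e1 : (∑ i ∈ t, a i • (ee (n i) * PP J)) (xi σ s κ θ) =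
          (∑ i ∈ t, ((rexp (-(s + κ * θ)) : ℝ) * cexp (I * (σ * θ : ℝ))) ^ n i * a i) *
            PP J (xi σ s κ θ) := by
        rw [Finset.sum_apply, sum_mul]
        refine sum_congr rfl fun i _ => ?_
        have : ee (n i) (xi σ s κ θ) =
            ((rexp (-(s + κ * θ)) : ℝ) * cexp (I * (σ * θ : ℝ))) ^ n i := by
          rw [ofReal_exp, ← Complex.exp_add, ← Complex.exp_nat_mul, ee, xi]
          congr 1
          push_cast
          linear_combination (n i * (s + κ * θ) : ℂ) * I_mul_I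
        simp only [Pi.smul_apply, Pi.mul_apply, smul_eq_mul, this]
        ring
      have b1 := h _ (cexp (I * (σ * θ : ℝ))) (Real.exp_pos (-(s + κ * θ)))
        (Real.exp_lt_one_iff.2 (by linarith)) (by rw [mul_comm]; exact norm_exp_ofReal_mul_I _)
      have b2 := gg_le hσ (by linarith : 0 < s + κ * θ) hy1 k0 h0 (by linarith)
      have b3 : 0 ≤ gg (rexp (-(s + κ * θ))) (cexp (I * (σ * θ : ℝ))) := by
        have : rexp (-(s + κ * θ)) < 1 := Real.exp_lt_one_iff.2 (by linarith)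
        unfold gg
        exact add_nonneg (by positivity) (div_nonneg (by positivity) (by linarith))
      have b4 : rexp (s + κ * θ + 2 * θ / κ) ^ w ≤ rexp (1 + M * θ / 32) ^ 2 := by
        rw [← Real.exp_nat_mul, ← Real.exp_nat_mul]
        refine Real.exp_le_exp.2 ?_
        have c1 : 2 * θ / κ = 64 * (J + 1) * θ := by rw [hκ]; field_simp; ring
        have c2 : κ * θ ≤ (J + 1) * θ := mul_le_mul_of_nonneg_right (by linarith) h0
        have c3 := mul_le_mul_of_nonneg_right hJ' h0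
        have c4 := mul_le_mul_of_nonneg_left c2 (zero_le_one.trans hw')
        have c5 : 0 ≤ w * ((J + 1) * θ) := by positivity
        rw [c1]
        push_cast
        nlinarith
      have b5 := b1.trans (mul_le_mul_of_nonneg_right
        ((pow_le_pow_left₀ b3 b2 w).trans b4) (sq_nonneg lam))
      rw [← mul_pow] at b5
      have b6 := (pow_le_pow_iff_left₀ (norm_nonneg _) (by positivity) two_ne_zero).1 b5
      have b7 := norm_PP hσ (by linarith : 0 ≤ s + κ * θ) h1 J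
      rw [e1, norm_mul]
      refine (mul_le_mul b6 b7 (norm_nonneg _) (by positivity)).trans_eq ?_
      rw [mul_right_comm, mul_right_comm (rexp 3), ← Real.exp_add, ← Real.exp_add, ← hM]
      congr 2
      linear_combination s1 + M * θ * k1
  calc _ ≤ M * (4 * (rexp 3 * lam) / (M / 16)) := mul_le_mul_of_nonneg_left key hM0.le
    _ = _ := by field_simp; ring

end

end Pool.Agent.Lib.MP_ee7726_lc.KW
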