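import Pool.Agent.Lib.MP_ee7726_lc.KW.Ana

/-!
A high-pass multiplier along a path which leaves the unit disc near the point one.
-/

namespace Pool.Agent.Lib.MP_ee7726_lc.KW

open Complex Real intervalIntegral Finset

noncomputable section

theorem norm_cq2 {σ s κ θ Y : ℝ} (hσ : σ = 1 ∨ σ = -1) (hy : |s + κ * θ| ≤ Y) (j : ℕ) :
    ‖cq j (xi σ s κ θ)‖ ≤ rexp (2 ^ j * Y) ∧
    (Real.cos (2 ^ j * θ) ≤ 0 → ‖cq j (xi σ s κ θ)‖ ≤ rexp (2 ^ j * Y) * (1 / 2)) := by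
  have e : (2 : ℂ) ^ j * xi σ s κ θ / 2 =
      ((2 ^ j * (σ * θ) / 2 : ℝ) : ℂ) + ((2 ^ j * (s + κ * θ) / 2 : ℝ) : ℂ) * I := by
    simp only [xi]; push_cast; ring
  have hc : Real.cos (2 ^ j * (σ * θ) / 2) ^ 2 = 1 / 2 + Real.cos (2 ^ j * θ) / 2 := by
    rw [Real.cos_sq, show 2 * (2 ^ j * (σ * θ) / 2) = σ * (2 ^ j * θ) by ring]
    rcases hσ with rfl | rfl <;> simp
  rw [cq, e, norm_cos_sq, hc, show 2 * (2 ^ j * (s + κ * θ) / 2) = 2 ^ j * (s + κ * θ) by ring]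
  have hY : 0 ≤ Y := (abs_nonneg _).trans hy
  have h4 : Real.cosh (2 ^ j * (s + κ * θ)) ≤ Real.cosh (2 ^ j * Y) := by
    rw [Real.cosh_le_cosh, abs_mul, abs_mul, abs_of_nonneg hY]
    exact mul_le_mul_of_nonneg_left hy (abs_nonneg _)
  have h0 : 0 ≤ 2 ^ j * Y := by positivity
  generalize 2 ^ j * Y = t at *
  have h1 : rexp (-t) ≤ rexp t := Real.exp_le_exp.2 (by linarith)
  have h2 : 1 ≤ rexp t := Real.one_le_exp h0
  have h3 := Real.cos_le_one (2 ^ j * θ)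
  rw [Real.cosh_eq t] at h4
  exact ⟨by linarith, fun h => by linarith⟩

theorem norm_PP2 {σ s κ θ Y : ℝ} (hσ : σ = 1 ∨ σ = -1) (hy : |s + κ * θ| ≤ Y) (h1 : θ ≤ π)
    (J : ℕ) : ‖PP J (xi σ s κ θ)‖ ≤ rexp (1 - 2 ^ J * θ / 8 + (J + 1) * 2 ^ J * Y) := by
  have hM : (0 : ℝ) < 2 ^ J := by positivity
  have hpw : ∀ j ∈ range (J + 1),
      rexp (2 ^ j * Y) ^ 2 ^ (J - j) = rexp (2 ^ J * Y) := fun j hj => by
    have : j ≤ J := Nat.lt_succ_iff.1 (mem_range.1 hj)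
    rw [← Real.exp_nat_mul, ← mul_assoc]
    push_cast
    rw [← pow_add, Nat.sub_add_cancel this]
  have hall : ∏ _j ∈ range (J + 1), rexp (2 ^ J * Y) = rexp ((J + 1) * 2 ^ J * Y) := by
    rw [prod_const, card_range, ← Real.exp_nat_mul]
    push_cast
    rw [mul_assoc]
  rw [PP_apply, norm_prod, Real.exp_add]
  simp only [norm_pow]
  by_cases h : π / 2 ^ (J + 1) < θ
  · obtain ⟨i, hi, a1, a2⟩ := exists_scale h h1
    have hc := Real.cos_nonpos_of_pi_div_two_le_of_le a1.le (by linarith [pi_pos])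
    have b1 : ∏ j ∈ range (J + 1), ‖cq j (xi σ s κ θ)‖ ^ 2 ^ (J - j) ≤ ∏ j ∈ range (J + 1),
        (rexp (2 ^ J * Y) * if j = i then (1 / 2) ^ 2 ^ (J - i) else 1) := by
      refine prod_le_prod (fun j _ => by positivity) fun j hj => ?_
      rw [← hpw j hj]
      split_ifs with hji
      · subst hji
        rw [← mul_pow]
        exact pow_le_pow_left₀ (norm_nonneg _) ((norm_cq2 hσ hy j).2 hc) _
      · rw [mul_one]
        exact pow_le_pow_left₀ (norm_nonneg _) (norm_cq2 hσ hy j).1 _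
    rw [prod_mul_distrib, hall, prod_ite_eq', if_pos (mem_range.2 (by omega)), mul_comm] at b1
    refine b1.trans (mul_le_mul_of_nonneg_right ?_ (Real.exp_pos _).le)
    have b2 : (1 / 2 : ℝ) ≤ rexp (-(1 / 2)) := by linarith [Real.add_one_le_exp (-(1 / 2))]
    refine (pow_le_pow_left₀ (by norm_num) b2 _).trans ?_
    rw [← Real.exp_nat_mul]
    refine Real.exp_le_exp.2 ?_
    push_cast
    have b3 : (2 : ℝ) ^ J = 2 ^ (J - i) * 2 ^ i := by rw [← pow_add, Nat.sub_add_cancel hi]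
    have b4 : (0 : ℝ) < 2 ^ (J - i) := by positivity
    have b5 := mul_le_mul_of_nonneg_left (a2.trans pi_le_four) b4.le
    rw [b3]
    linarith
  · have b1 : ∏ j ∈ range (J + 1), ‖cq j (xi σ s κ θ)‖ ^ 2 ^ (J - j) ≤
        ∏ _j ∈ range (J + 1), rexp (2 ^ J * Y) :=
      prod_le_prod (fun j _ => by positivity) fun j hj => by
        rw [← hpw j hj]
        exact pow_le_pow_left₀ (norm_nonneg _) (norm_cq2 hσ hy j).1 _
    rw [hall] at b1
    refine b1.trans (le_mul_of_one_le_left (Real.exp_pos _).le (Real.one_le_exp ?_))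
    rw [not_lt, le_div_iff₀ (by positivity), pow_succ] at h
    linarith [pi_le_four]

theorem ee_cont (j : ℤ) : Continuous (ee j) := by unfold ee; fun_prop

theorem Lam_congr {f g : ℂ → ℂ} {s κ : ℝ}
    (h : ∀ σ : ℝ, σ = 1 ∨ σ = -1 → ∀ θ, 0 ≤ θ → θ ≤ π → f (xi σ s κ θ) = g (xi σ s κ θ)) :
    Lam s κ f = Lam s κ g := by
  have key : ∀ σ : ℝ, σ = 1 ∨ σ = -1 → pc σ s κ f = pc σ s κ g := fun σ hσ =>
    integral_congr fun θ hθ => by
      rw [Set.uIcc_of_le pi_pos.le] at hθ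
      simp only [h σ hσ θ hθ.1 hθ.2]
  rw [Lam, Lam, key 1 (Or.inl rfl), key _ (Or.inr rfl)]

theorem LP.lin {a : ℤ} {f u G : ℂ → ℂ} (hf : f ∈ LP a) (hu : Continuous u) (hG : Continuous G)
    {s κ : ℝ} {c : ℂ} (h : ∀ j, a ≤ j → Lam s κ ((ee j ∘ u) * G) = c) :
    Lam s κ ((f ∘ u) * G) = f 0 * c := by
  induction hf using Submodule.span_induction with
  | mem f hf =>
    obtain ⟨j, hj, rfl⟩ := hf
    rw [h j hj]; simp [ee]
  | zero =>
    have : ((0 : ℂ → ℂ) ∘ u) * G = 0 := by funext ξ; simp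
    rw [this, Lam_zero]; simp
  | add x y hx' hy' hx hy =>
    have : ((x + y) ∘ u) * G = (x ∘ u) * G + (y ∘ u) * G := by funext ξ; simp [add_mul]
    rw [this, Lam_add (((LP.spec hx').1.comp hu).mul hG) (((LP.spec hy').1.comp hu).mul hG), hx, hy,
      Pi.add_apply, add_mul]
  | smul c x _ hx =>
    have : ((c • x) ∘ u) * G = c • ((x ∘ u) * G) := by funext ξ; simp [mul_assoc]
    rw [this, Lam_smul, hx, Pi.smul_apply, smul_eq_mul, mul_assoc]

theorem exists_W {c : ℝ} (hc : 0 < c) : ∃ W : ℂ → ℂ, Continuous W ∧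
    ∀ ξ, c ≤ ‖ee 1 ξ - 1‖ → (ee 1 ξ - 1) * W ξ = ee 1 ξ := by
  have h1 := ee_cont 1
  refine ⟨fun ξ => ee 1 ξ * (starRingEnd ℂ) (ee 1 ξ - 1) / ((max ‖ee 1 ξ - 1‖ c : ℝ) : ℂ) ^ 2,
    Continuous.div (by fun_prop) (by fun_prop) fun ξ =>
      pow_ne_zero _ (ofReal_ne_zero.2 (lt_max_of_lt_right hc).ne'), fun ξ h => ?_⟩
  have h2 : ((‖ee 1 ξ - 1‖ : ℝ) : ℂ) ≠ 0 := ofReal_ne_zero.2 (hc.trans_le h).ne'
  beta_reduce
  rw [max_eq_left h, ← mul_div_assoc, mul_left_comm, Complex.mul_conj', mul_div_assoc,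
    div_self (pow_ne_zero _ h2), mul_one]

theorem steps {E : ℤ → ℂ} {c : ℂ} (h : ∀ j, E (j + 1) - E j = if j + 1 = 0 then c else 0) (j : ℤ) :
    E j = if 0 ≤ j then E 0 else E 0 - c := by
  induction j using Int.induction_on with
  | zero => simp
  | succ n ih =>
    have := h n
    rw [if_neg (by omega)] at this
    rw [if_pos (by omega)] at ih ⊢
    linear_combination this + ih
  | pred n ih =>
    have := h (-n - 1)
    rw [sub_add_cancel] at this
    rw [if_neg (by omega)]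
    by_cases hn : n = 0
    · subst hn
      simp only [Nat.cast_zero, neg_zero, if_true] at this ⊢
      linear_combination -this
    · rw [if_neg (by omega)] at this ih
      linear_combination ih - this

theorem path_far {σ τ κ θ : ℝ} (hσ : σ = 1 ∨ σ = -1) (hτ : 0 < τ) (k0 : 0 < κ) (k1 : κ ≤ 1 / 8)
    (h0 : 0 ≤ θ) (h1 : θ ≤ π) : τ / 2 ≤ ‖ee 1 (xi σ (-τ) κ θ) - 1‖ := by
  have e : ee 1 (xi σ (-τ) κ θ) - 1 = ((rexp (τ - κ * θ) * Real.cos θ - 1 : ℝ) : ℂ) +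
      ((rexp (τ - κ * θ) * (σ * Real.sin θ) : ℝ) : ℂ) * I := by
    have : ((1 : ℤ) : ℂ) * xi σ (-τ) κ θ * I = ((τ - κ * θ : ℝ) : ℂ) + (σ * θ : ℝ) * I := by
      simp only [xi]; push_cast
      linear_combination (-τ + κ * θ : ℂ) * I_mul_I
    rw [ee, this, Complex.exp_add, exp_mul_I, ← ofReal_exp, ← ofReal_cos, ← ofReal_sin]
    rcases hσ with rfl | rfl <;> simp <;> ring
  refine (pow_le_pow_iff_left₀ (by positivity) (norm_nonneg _) two_ne_zero).1 ?_
  rw [e, Complex.sq_norm, normSq_add_mul_I]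
  have a1 := Real.add_one_le_exp (τ - κ * θ)
  have a2 : σ ^ 2 = 1 := by rcases hσ with rfl | rfl <;> norm_num
  have a3 := Real.sin_sq_add_cos_sq θ
  have a4 := Real.cos_le_one θ
  have a0 := Real.exp_pos (τ - κ * θ)
  generalize rexp (τ - κ * θ) = a at *
  have a5 : (a * Real.cos θ - 1) ^ 2 + (a * (σ * Real.sin θ)) ^ 2 =
      (a - 1) ^ 2 + 2 * a * (1 - Real.cos θ) := by
    linear_combination a ^ 2 * Real.sin θ ^ 2 * a2 + a ^ 2 * a3
  rw [a5]
  by_cases h : κ * θ ≤ τ / 2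
  · have := pow_le_pow_left₀ (by positivity) (show τ / 2 ≤ a - 1 by linarith) 2
    nlinarith [mul_nonneg a0.le (sub_nonneg.2 a4)]
  · have b1 : κ * θ ≤ 1 / 2 := by nlinarith [pi_le_four]
    have b2 : Real.cos θ ≤ 1 - 2 / π ^ 2 * θ ^ 2 :=
      Real.cos_le_one_sub_mul_cos_sq (by rwa [abs_of_nonneg h0])
    have b3 : 1 / 8 ≤ 2 / π ^ 2 := by
      rw [div_le_div_iff₀ (by norm_num) (by positivity)]
      nlinarith [pi_le_four, pi_pos]
    have b4 : 4 * τ ≤ θ := by nlinarith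
    have b5 := pow_le_pow_left₀ (by positivity) b4 2
    have b6 := mul_le_mul_of_nonneg_right b3 (sq_nonneg θ)
    nlinarith [sq_nonneg (a - 1), mul_le_mul_of_nonneg_right (show 1 ≤ 2 * a by linarith)
      (sub_nonneg.2 a4)]

theorem norm_ee (j : ℤ) (σ s κ θ : ℝ) : ‖ee j (xi σ s κ θ)‖ = rexp (-(j * (s + κ * θ))) := by
  rw [ee, Complex.norm_exp]
  simp [xi]

theorem gg2_le {τ u θ σ κ : ℝ} (hσ : σ = 1 ∨ σ = -1) (h0 : 0 < τ) (hκ : 0 < κ) (hθ : 0 ≤ θ)
    (h1 : τ + κ * θ ≤ 1) (hu : u ^ 2 ≤ 9 * τ ^ 2) :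
    1 / rexp (-(τ + κ * θ)) + (u ^ 2 + ‖1 - cexp (I * (σ * θ : ℝ))‖ ^ 2) /
      (1 - rexp (-(τ + κ * θ))) ≤ rexp (τ + κ * θ + (18 * τ + 2 * θ / κ)) := by
  have a1 : ‖1 - cexp (I * (σ * θ : ℝ))‖ ≤ θ := by
    rw [norm_sub_rev]
    refine Real.norm_exp_I_mul_ofReal_sub_one_le.trans_eq ?_
    rcases hσ with rfl | rfl <;> simp [abs_of_nonneg hθ]
  have c0 : 0 ≤ κ * θ := by positivity
  have c1 : τ ≤ τ + κ * θ := by linarith
  have c2 : κ * θ ≤ τ + κ * θ := by linarith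
  generalize τ + κ * θ = y at *
  have a2 : rexp (-y) * rexp y = 1 := by rw [← Real.exp_add]; simp
  have a3 := Real.add_one_le_exp y
  have a4 := Real.exp_pos (-y)
  have a5 : y / 2 ≤ 1 - rexp (-y) := by nlinarith [mul_le_mul_of_nonneg_left a3 a4.le]
  have a8 : 0 ≤ 18 * τ + 2 * θ / κ := by positivity
  have a6 : (u ^ 2 + ‖1 - cexp (I * (σ * θ : ℝ))‖ ^ 2) / (1 - rexp (-y)) ≤
      18 * τ + 2 * θ / κ := by
    rw [div_le_iff₀ (by linarith)]
    refine le_trans ?_ (mul_le_mul_of_nonneg_left a5 a8)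
    have b1 := pow_le_pow_left₀ (norm_nonneg _) a1 2
    have b2 : θ ^ 2 ≤ θ / κ * y := by
      rw [div_mul_eq_mul_div, le_div_iff₀ hκ]
      nlinarith [mul_le_mul_of_nonneg_left c2 hθ]
    have b3 := mul_le_mul_of_nonneg_left c1 h0.le
    have b4 : (18 * τ + 2 * θ / κ) * (y / 2) = 9 * (τ * y) + θ / κ * y := by ring
    rw [b4]
    nlinarith
  have a7 := Real.add_one_le_exp (18 * τ + 2 * θ / κ)
  have a9 : 1 / rexp (-y) = rexp y := by rw [Real.exp_neg]; simp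
  rw [a9, Real.exp_add]
  generalize 18 * τ + 2 * θ / κ = v at *
  nlinarith [mul_le_mul_of_nonneg_left a7 (Real.exp_pos y).le]

/-- The high-pass multiplier. -/
theorem ana2 {w J N : ℕ} {τ u : ℝ} (hw : 1 ≤ w) (hJ : 4224 * w * (J + 1) ≤ 2 ^ J) (hN0 : 1 ≤ N)
    (hN : N ≤ (J + 1) * 2 ^ J) (t0 : 1 ≤ 258 * w * τ) (t1 : 256 * w * τ ≤ 1)
    (hu : u ^ 2 ≤ 9 * τ ^ 2) :
    ∃ χ : ℕ → ℂ, (∀ k, 2 * ((J + 1) * 2 ^ J) + N < k → χ k = χ 0 + 2 * π) ∧
      ∀ {ι : Type} (t : Finset ι) (a : ι → ℂ) (n : ι → ℕ) (lam : ℝ), 0 ≤ lam →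
        (∀ (r : ℝ) (ζ : ℂ), 0 < r → r < 1 → ‖ζ‖ = 1 →
          ‖∑ i ∈ t, ((rexp (2 * τ) : ℝ) * r * ζ) ^ n i * a i‖ ^ 2 ≤
            (1 / r + (u ^ 2 + ‖1 - ζ‖ ^ 2) / (1 - r)) ^ w * lam ^ 2) →
        ‖∑ i ∈ t, χ (n i) * a i‖ ≤ 256 * rexp (-(N * τ)) * lam := by
  set M : ℝ := 2 ^ J with hM
  have hB : (1 : ℝ) ≤ J + 1 := by linarith [Nat.cast_nonneg (α := ℝ) J]
  have hw' : (1 : ℝ) ≤ w := by exact_mod_cast hw
  have hJ' : 4224 * w * (J + 1) ≤ M := by rw [hM]; exact_mod_cast hJ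
  have hN' : N ≤ (J + 1) * M := by rw [hM]; exact_mod_cast hN
  have hM1 : 4224 * w ≤ M := le_trans (le_mul_of_one_le_right (by positivity) hB) hJ'
  have hM0 : 0 < M := by positivity
  have s0 : 0 < τ := by
    by_contra h
    nlinarith [mul_nonneg (zero_le_one.trans hw') (neg_nonneg.2 (not_lt.1 h))]
  have s1 : τ ≤ 1 / 256 := by nlinarith
  have s2 : 16 ≤ M * τ := by nlinarith
  set κ : ℝ := 1 / (128 * (J + 1)) with hκ
  have k0 : 0 < κ := by positivity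
  have k1 : (J + 1) * κ = 1 / 128 := by rw [hκ]; field_simp
  have k2 : κ ≤ 1 / 128 := by nlinarith
  obtain ⟨W, hW, hW1⟩ := exists_W (half_pos s0)
  have hW2 : ∀ σ : ℝ, σ = 1 ∨ σ = -1 → ∀ θ, 0 ≤ θ → θ ≤ π →
      (ee 1 (xi σ (-τ) κ θ) - 1) * W (xi σ (-τ) κ θ) = ee 1 (xi σ (-τ) κ θ) :=
    fun σ hσ θ h0 h1 => hW1 _ (path_far hσ s0 k0 (by linarith) h0 h1)
  have hE := steps (E := fun j => Lam (-τ) κ (ee j * W)) (c := 2 * π) fun j => by
    rw [← Lam_ee (-τ) κ, sub_eq_iff_eq_add,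
      ← Lam_add (ee_cont _) ((ee_cont _).mul hW)]
    refine Lam_congr fun σ hσ θ h0 h1 => ?_
    simp only [← ee_add, Pi.mul_apply, Pi.add_apply]
    linear_combination ee j (xi σ (-τ) κ θ) * hW2 σ hσ θ h0 h1
  have hP := (LP.spec (PP_mem J)).1
  have P0 : PP J 0 = 1 := by simp [PP_apply, cq]
  obtain ⟨D, hD⟩ : ∃ D : ℕ, D = (J + 1) * 2 ^ J + N := ⟨_, rfl⟩
  refine ⟨fun k => Lam (-τ) κ (PP J * (ee (k - D) * W)), fun k hk => ?_,
    fun t a n lam hl h => ?_⟩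
  · have e1 := LP.lin (PP_mem J) continuous_id ((ee_cont (k - D)).mul hW) (s := -τ) (κ := κ)
      (c := Lam (-τ) κ (ee 0 * W)) fun j hj => by
        rw [Function.comp_id, ← mul_assoc, ee_add, hE, if_pos (by omega)]
    have e2 := LP.lin (PP_mem J) continuous_neg ((ee_cont ((0 : ℕ) - D)).mul hW) (s := -τ) (κ := κ)
      (c := Lam (-τ) κ (ee 0 * W) - 2 * π) fun j hj => by
        have : ee j ∘ Neg.neg = ee (-j) := by funext ξ; simp [ee]
        rw [this, ← mul_assoc, ee_add, hE, if_neg (by omega)]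
    have e3 : PP J ∘ Neg.neg = PP J := by funext ξ; simp [PP_apply, cq, neg_div]
    rw [Function.comp_id, P0] at e1
    rw [e3, P0] at e2
    beta_reduce
    rw [e1, e2]
    ring
  beta_reduce
  have e : ∑ i ∈ t, Lam (-τ) κ (PP J * (ee (n i - D) * W)) * a i =
      Lam (-τ) κ (∑ i ∈ t, a i • (PP J * (ee (n i - D) * W))) := by
    rw [Lam_sum t fun i => (hP.mul ((ee_cont _).mul hW)).const_smul (a i)]
    exact sum_congr rfl fun i _ => by rw [Lam_smul]; ring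
  rw [e]
  have key := norm_Lam_le (f := ∑ i ∈ t, a i • (PP J * (ee (n i - D) * W))) (s := -τ) (κ := κ)
    (B := rexp 2 * rexp (-(N * τ)) * lam * (4 / τ)) (c := M / 16)
    (by rw [abs_of_pos k0]; linarith) (by positivity)
    (by positivity) fun σ hσ θ h0 h1 => by
      have hκθ : 0 ≤ κ * θ := by positivity
      have hy1 : τ + κ * θ ≤ 1 := by nlinarith [pi_le_four]
      have e1 : (∑ i ∈ t, a i • (PP J * (ee (n i - D) * W))) (xi σ (-τ) κ θ) =
          (∑ i ∈ t, ((rexp (2 * τ) : ℝ) * (rexp (-(τ + κ * θ)) : ℝ) *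
            cexp (I * (σ * θ : ℝ))) ^ n i * a i) * PP J (xi σ (-τ) κ θ) *
            ee (-D) (xi σ (-τ) κ θ) * W (xi σ (-τ) κ θ) := by
        rw [Finset.sum_apply, sum_mul, sum_mul, sum_mul]
        refine sum_congr rfl fun i _ => ?_
        have : ee (n i) (xi σ (-τ) κ θ) = ((rexp (2 * τ) : ℝ) * (rexp (-(τ + κ * θ)) : ℝ) *
            cexp (I * (σ * θ : ℝ))) ^ n i := by
          rw [ofReal_exp, ofReal_exp, ← Complex.exp_add, ← Complex.exp_add,
            ← Complex.exp_nat_mul, ee, xi]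
          congr 1
          push_cast
          linear_combination (n i * (-τ + κ * θ) : ℂ) * I_mul_I
        simp only [Pi.smul_apply, Pi.mul_apply, smul_eq_mul, sub_eq_add_neg, ← ee_add, this]
        ring
      have r1 : rexp (-(τ + κ * θ)) < 1 := Real.exp_lt_one_iff.2 (by linarith)
      have b1 := h _ (cexp (I * (σ * θ : ℝ))) (Real.exp_pos (-(τ + κ * θ))) r1
        (by rw [mul_comm]; exact norm_exp_ofReal_mul_I _)
      have b2 := gg2_le hσ s0 k0 h0 hy1 hu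
      have b4 : rexp (τ + κ * θ + (18 * τ + 2 * θ / κ)) ^ w ≤ rexp (1 + M * θ / 32) ^ 2 := by
        rw [← Real.exp_nat_mul, ← Real.exp_nat_mul]
        refine Real.exp_le_exp.2 ?_
        have c1 : 2 * θ / κ = 256 * (J + 1) * θ := by rw [hκ]; field_simp; ring
        have c2 : κ * θ ≤ (J + 1) * θ := mul_le_mul_of_nonneg_right (by linarith) h0
        have c3 := mul_le_mul_of_nonneg_right hJ' h0
        have c4 := mul_le_mul_of_nonneg_left c2 (zero_le_one.trans hw')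
        have c5 : 0 ≤ w * ((J + 1) * θ) := by positivity
        rw [c1]
        push_cast
        nlinarith
      have b5 := b1.trans (mul_le_mul_of_nonneg_right ((pow_le_pow_left₀ (add_nonneg
        (by positivity) (div_nonneg (by positivity) (by linarith))) b2 w).trans b4) (sq_nonneg lam))
      rw [← mul_pow] at b5
      have b6 := (pow_le_pow_iff_left₀ (norm_nonneg _) (by positivity) two_ne_zero).1 b5
      have b7 := norm_PP2 hσ (abs_le.2 ⟨by linarith, by linarith⟩ : |-τ + κ * θ| ≤ τ + κ * θ) h1 J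
      have b8 : ‖W (xi σ (-τ) κ θ)‖ ≤ 4 / τ := by
        have c1 := congrArg norm (hW2 σ hσ θ h0 h1)
        rw [norm_mul, norm_ee] at c1
        have c2 := mul_le_mul_of_nonneg_right (path_far hσ s0 k0 (by linarith) h0 h1)
          (norm_nonneg (W (xi σ (-τ) κ θ)))
        have c3 : rexp (-(((1 : ℤ) : ℝ) * (-τ + κ * θ))) ≤ 2 := by
          rw [← Real.exp_log two_pos]
          refine Real.exp_le_exp.2 ?_
          push_cast
          linarith [Real.log_two_gt_d9]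
        rw [le_div_iff₀ s0]
        linarith
      rw [e1, norm_mul, norm_mul, norm_mul, norm_ee, mul_right_comm _ (4 / τ)]
      refine mul_le_mul (le_trans (mul_le_mul_of_nonneg_right
        (mul_le_mul b6 b7 (norm_nonneg _) (by positivity)) (Real.exp_pos _).le) ?_) b8
        (norm_nonneg _) (by positivity)
      rw [mul_right_comm _ lam, mul_right_comm _ lam, mul_right_comm _ lam, ← Real.exp_add,
        ← Real.exp_add, ← Real.exp_add, ← Real.exp_add, ← hM]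
      refine mul_le_mul_of_nonneg_right (Real.exp_le_exp.2 ?_) hl
      have c1 := mul_le_mul_of_nonneg_right hN' hκθ
      have c2 : (J + 1) * M * (κ * θ) = M * θ / 128 := by linear_combination M * θ * k1
      have c3 : 0 ≤ M * θ := by positivity
      rw [hD]
      push_cast
      rw [← hM]
      nlinarith
  refine key.trans ?_
  have c1 : rexp 2 ≤ 16 := by
    rw [show (2 : ℝ) = 1 + 1 by norm_num, Real.exp_add]
    nlinarith [Real.exp_one_lt_d9, Real.exp_pos 1]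
  have c2 : 4 * (rexp 2 * rexp (-(N * τ)) * lam * (4 / τ)) / (M / 16) =
      256 * rexp (-(N * τ)) * lam * (rexp 2 / (M * τ)) := by field_simp; ring
  rw [c2]
  exact mul_le_of_le_one_right (by positivity) ((div_le_one (by positivity)).2 (by linarith))

end

end Pool.Agent.Lib.MP_ee7726_lc.KW
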