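import Mathlib

/-!
Laurent polynomials in `exp (i ξ)` and their integrals along a broken path.
-/

namespace Pool.Agent.Lib.MP_ee7726_lc.KW

open Complex Real intervalIntegral

noncomputable section

def ee (j : ℤ) (ξ : ℂ) : ℂ := cexp (j * ξ * I)

/-- The two halves of the path. -/
def xi (σ s κ θ : ℝ) : ℂ := (σ * θ : ℝ) + (s + κ * θ : ℝ) * I

def pc (σ s κ : ℝ) (f : ℂ → ℂ) : ℂ := ∫ θ in (0 : ℝ)..π, f (xi σ s κ θ) * (1 + σ * κ * I)

def Lam (s κ : ℝ) (f : ℂ → ℂ) : ℂ := pc 1 s κ f + pc (-1) s κ f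

/-- Laurent polynomials with exponents at least `a`. -/
def LP (a : ℤ) : Submodule ℂ (ℂ → ℂ) := Submodule.span ℂ {f | ∃ j, a ≤ j ∧ f = ee j}

theorem ee_add (i j : ℤ) : ee i * ee j = ee (i + j) := by
  funext ξ
  simp only [ee, Pi.mul_apply, ← Complex.exp_add]
  congr 1
  push_cast
  ring

theorem ee_mem {a j : ℤ} (h : a ≤ j) : ee j ∈ LP a := Submodule.subset_span ⟨j, h, rfl⟩

theorem one_mem : (1 : ℂ → ℂ) ∈ LP 0 := by
  have : (1 : ℂ → ℂ) = ee 0 := by funext ξ; simp [ee]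
  rw [this]; exact ee_mem le_rfl

theorem LP.mul {a b : ℤ} {f g : ℂ → ℂ} (hf : f ∈ LP a) (hg : g ∈ LP b) : f * g ∈ LP (a + b) := by
  induction hf using Submodule.span_induction with
  | mem f hf =>
    obtain ⟨i, hi, rfl⟩ := hf
    induction hg using Submodule.span_induction with
    | mem g hg =>
      obtain ⟨j, hj, rfl⟩ := hg
      rw [ee_add]; exact ee_mem (by omega)
    | zero => rw [mul_zero]; exact zero_mem _
    | add x y _ _ hx hy => rw [mul_add]; exact add_mem hx hy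
    | smul c x _ hx => rw [mul_smul_comm]; exact Submodule.smul_mem _ _ hx
  | zero => rw [zero_mul]; exact zero_mem _
  | add x y _ _ hx hy => rw [add_mul]; exact add_mem hx hy
  | smul c x _ hx => rw [smul_mul_assoc]; exact Submodule.smul_mem _ _ hx

theorem LP.pow {a : ℤ} {f : ℂ → ℂ} (hf : f ∈ LP a) (n : ℕ) : f ^ n ∈ LP (n * a) := by
  induction n with
  | zero => simpa using one_mem
  | succ n ih =>
    rw [pow_succ, show ((n + 1 : ℕ) : ℤ) * a = n * a + a by push_cast; ring]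
    exact LP.mul ih hf

theorem LP.prod {ι : Type} (s : Finset ι) {a : ι → ℤ} {f : ι → ℂ → ℂ}
    (hf : ∀ i ∈ s, f i ∈ LP (a i)) : ∏ i ∈ s, f i ∈ LP (∑ i ∈ s, a i) := by
  classical
  induction s using Finset.induction_on with
  | empty => simpa using one_mem
  | insert i s hi ih =>
    rw [Finset.prod_insert hi, Finset.sum_insert hi]
    exact LP.mul (hf i (by simp)) (ih fun j hj => hf j (by simp [hj]))

theorem xi_cont (σ s κ : ℝ) : Continuous (xi σ s κ) := by unfold xi; fun_prop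

theorem pc_int {f : ℂ → ℂ} (hf : Continuous f) (σ s κ : ℝ) :
    IntervalIntegrable (fun θ => f (xi σ s κ θ) * (1 + σ * κ * I)) MeasureTheory.volume 0 π :=
  ((hf.comp (xi_cont σ s κ)).mul continuous_const).intervalIntegrable _ _

theorem Lam_add {f g : ℂ → ℂ} (hf : Continuous f) (hg : Continuous g) (s κ : ℝ) :
    Lam s κ (f + g) = Lam s κ f + Lam s κ g := by
  simp only [Lam, pc, Pi.add_apply, add_mul]
  rw [integral_add (pc_int hf _ _ _) (pc_int hg _ _ _),
    integral_add (pc_int hf _ _ _) (pc_int hg _ _ _)]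
  ring

theorem Lam_smul (c : ℂ) (f : ℂ → ℂ) (s κ : ℝ) : Lam s κ (c • f) = c * Lam s κ f := by
  simp only [Lam, pc, Pi.smul_apply, smul_eq_mul, mul_assoc c, integral_const_mul]
  ring

theorem Lam_zero (s κ : ℝ) : Lam s κ 0 = 0 := by simp [Lam, pc]

theorem pc_ee {σ : ℝ} (hσ : σ * σ = 1) (s κ : ℝ) {j : ℤ} (hj : j ≠ 0) :
    pc σ s κ (ee j) = σ * (ee j (xi σ s κ π) - ee j (xi σ s κ 0)) / (j * I) := by
  have hj' : (j : ℂ) * I ≠ 0 := mul_ne_zero (by exact_mod_cast hj) I_ne_zero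
  have hσ' : (σ : ℂ) * σ = 1 := by exact_mod_cast hσ
  have hd : ∀ θ : ℝ, HasDerivAt (fun θ : ℝ => σ * ee j (xi σ s κ θ) / (j * I))
      (ee j (xi σ s κ θ) * (1 + σ * κ * I)) θ := by
    intro θ
    have h0 : HasDerivAt (fun θ : ℝ => (θ : ℂ)) 1 θ := Complex.ofRealCLM.hasDerivAt
    have h1 : HasDerivAt (fun θ : ℝ => j * xi σ s κ θ * I) (j * (σ + κ * I) * I) θ := by
      have := ((((h0.const_mul (σ : ℂ)).add (((h0.const_mul (κ : ℂ)).const_add (s : ℂ)).mul_const
        I))).const_mul (j : ℂ)).mul_const I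
      simp only [mul_one] at this
      refine this.congr_of_eventuallyEq (Filter.Eventually.of_forall fun t => ?_)
      simp [xi]
    refine ((h1.cexp.const_mul (σ : ℂ)).div_const (j * I)).congr_deriv ?_
    rw [div_eq_iff hj', ee]
    linear_combination (cexp (j * xi σ s κ θ * I) * (j * I)) * hσ'
  rw [pc, integral_eq_sub_of_hasDerivAt (fun θ _ => hd θ)
    (pc_int (f := ee j) (by unfold ee; fun_prop) σ s κ)]
  ring

theorem Lam_ee (s κ : ℝ) (j : ℤ) : Lam s κ (ee j) = if j = 0 then (2 * π : ℂ) else 0 := by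
  split_ifs with hj
  · subst hj
    simp only [Lam, pc, ee, Int.cast_zero, zero_mul, Complex.exp_zero, one_mul, integral_const,
      sub_zero, real_smul]
    push_cast
    ring
  · have e1 : ee j (xi 1 s κ π) = ee j (xi (-1) s κ π) := by
      have : (j : ℂ) * xi 1 s κ π * I = j * xi (-1) s κ π * I + j * (2 * π * I) := by
        simp only [xi]; push_cast; ring
      rw [ee, ee, this, Complex.exp_add, exp_int_mul_two_pi_mul_I, mul_one]
    have e0 : xi 1 s κ 0 = xi (-1) s κ 0 := by simp [xi]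
    rw [Lam, pc_ee (by norm_num) s κ hj, pc_ee (by norm_num) s κ hj, e1, e0]
    push_cast
    ring

theorem LP.spec {a : ℤ} {f : ℂ → ℂ} (hf : f ∈ LP a) : Continuous f ∧
    ∀ s κ, Lam s κ f = Lam 0 0 f ∧ (1 ≤ a → Lam s κ f = 0) := by
  induction hf using Submodule.span_induction with
  | mem f hf =>
    obtain ⟨j, hj, rfl⟩ := hf
    refine ⟨by unfold ee; fun_prop, fun s κ => ⟨by rw [Lam_ee, Lam_ee], fun h => ?_⟩⟩
    rw [Lam_ee, if_neg (by omega)]
  | zero => exact ⟨continuous_zero, fun s κ => by simp [Lam_zero]⟩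
  | add x y _ _ hx hy =>
    refine ⟨hx.1.add hy.1, fun s κ => ⟨?_, fun h => ?_⟩⟩
    · rw [Lam_add hx.1 hy.1, Lam_add hx.1 hy.1, (hx.2 s κ).1, (hy.2 s κ).1]
    · rw [Lam_add hx.1 hy.1, (hx.2 s κ).2 h, (hy.2 s κ).2 h, add_zero]
  | smul c x _ hx =>
    refine ⟨hx.1.const_smul c, fun s κ => ⟨?_, fun h => ?_⟩⟩
    · rw [Lam_smul, Lam_smul, (hx.2 s κ).1]
    · rw [Lam_smul, (hx.2 s κ).2 h, mul_zero]

theorem Lam_sum {ι : Type} (t : Finset ι) {f : ι → ℂ → ℂ} (hf : ∀ i, Continuous (f i)) (s κ : ℝ) :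
    Lam s κ (∑ i ∈ t, f i) = ∑ i ∈ t, Lam s κ (f i) := by
  classical
  induction t using Finset.induction_on with
  | empty => simp [Lam_zero]
  | insert i t hi ih =>
    have hc : Continuous (∑ i ∈ t, f i) := by
      have := continuous_finsetSum t fun i _ => hf i
      exact this.congr fun x => by simp
    rw [Finset.sum_insert hi, Finset.sum_insert hi, Lam_add (hf i) hc, ih]

/-- Exponential decay along the path bounds the functional. -/
theorem norm_Lam_le {f : ℂ → ℂ} {s κ B c : ℝ} (hκ : |κ| ≤ 1) (hB : 0 ≤ B) (hc : 0 < c)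
    (h : ∀ σ : ℝ, σ = 1 ∨ σ = -1 → ∀ θ, 0 ≤ θ → θ ≤ π →
      ‖f (xi σ s κ θ)‖ ≤ B * rexp (-(c * θ))) : ‖Lam s κ f‖ ≤ 4 * B / c := by
  have hi : ∫ θ in (0 : ℝ)..π, 2 * B * rexp (-(c * θ)) ≤ 2 * B / c := by
    have hd : ∀ θ : ℝ, HasDerivAt (fun θ : ℝ => -(2 * B / c) * rexp (-(c * θ)))
        (2 * B * rexp (-(c * θ))) θ := fun θ =>
      ((((hasDerivAt_id θ).const_mul c).neg.exp).const_mul (-(2 * B / c))).congr_deriv (by
        simp only [id, Pi.neg_apply]; field_simp)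
    rw [integral_eq_sub_of_hasDerivAt (fun θ _ => hd θ)
      (Continuous.intervalIntegrable (by fun_prop) _ _)]
    have : 0 ≤ 2 * B / c * rexp (-(c * π)) := by positivity
    simp only [mul_zero, neg_zero, Real.exp_zero]
    linarith
  have key : ∀ σ : ℝ, σ = 1 ∨ σ = -1 → ‖pc σ s κ f‖ ≤ 2 * B / c := fun σ hσ => by
    refine (norm_integral_le_of_norm_le pi_pos.le (Filter.Eventually.of_forall fun θ hθ => ?_)
      (Continuous.intervalIntegrable (by fun_prop) _ _)).trans hi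
    have h2 : ‖(1 + σ * κ * I : ℂ)‖ ≤ 2 := by
      refine (norm_add_le _ _).trans ?_
      have : |σ| = 1 := by rcases hσ with rfl | rfl <;> simp
      simp only [norm_one, norm_mul, norm_real, Real.norm_eq_abs, norm_I, this]
      linarith
    rw [norm_mul]
    exact (mul_le_mul (h σ hσ θ hθ.1.le hθ.2) h2 (norm_nonneg _) (by positivity)).trans_eq
      (by ring)
  refine (norm_add_le _ _).trans ((add_le_add (key 1 (Or.inl rfl)) (key _ (Or.inr rfl))).trans_eq ?_)
  ring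

end

end Pool.Agent.Lib.MP_ee7726_lc.KW
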